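import Mathlib
import Pool.Agent.Lib.MP_335725_an.BlockExists

/-!
# Infinite ergodic index and the product of a transformation with its inverse

There is an invertible measure-preserving transformation of a standard non-atomic sigma-finite
infinite measure space all of whose finite Cartesian powers are ergodic, while its product with
its inverse has an invariant measurable set that is neither null nor conull.
-/

set_option autoImplicit false

open MeasureTheory Set
open scoped ENNReal

namespace Pool.Agent.Results.MP_335725_an.InverseProduct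

/-- Ergodicity of a map `f` for a measure `m`: every measurable `A` whose preimage under `f` is
`A` itself satisfies `m A = 0` or `m Aᶜ = 0`. -/
def IsErgodic {Y : Type} [MeasurableSpace Y] (m : Measure Y) (f : Y → Y) : Prop :=
  ∀ A : Set Y, MeasurableSet A → f ⁻¹' A = A → m A = 0 ∨ m Aᶜ = 0

/-- The `k`-fold Cartesian power of a map: it acts on each of the `k` coordinates by `T`. -/
def cartPower {X : Type} (T : X → X) (k : ℕ) : (Fin k → X) → (Fin k → X) :=
  fun x i => T (x i)

/-- Infinite ergodic index: for every `k ≥ 1` the `k`-fold Cartesian power of `T` is ergodic for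
the `k`-fold product measure. -/
def InfiniteErgodicIndex {X : Type} [MeasurableSpace X] (m : Measure X) (T : X → X) : Prop :=
  ∀ k : ℕ, 1 ≤ k → IsErgodic (Measure.pi fun _ : Fin k => m) (cartPower T k)

theorem isErgodic_of_ergodic {Y : Type} [MeasurableSpace Y] {m : Measure Y} {f : Y → Y}
    (h : Ergodic f m) : IsErgodic m f := by
  intro A hA hfA
  have h1 := h.toPreErgodic.aeconst_set hA hfA
  rw [Filter.eventuallyConst_set'] at h1
  rcases h1 with h1 | h1
  · exact Or.inl (MeasureTheory.ae_eq_empty.1 h1)
  · exact Or.inr (MeasureTheory.ae_eq_univ.1 h1)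

theorem result :
    ∃ (X : Type) (_ : MeasurableSpace X) (_ : StandardBorelSpace X) (m : Measure X)
      (_ : SigmaFinite m) (T : X ≃ᵐ X),
      m univ = ∞ ∧ (∀ x : X, m {x} = 0) ∧
      (∀ A : Set X, MeasurableSet A → m (T ⁻¹' A) = m A) ∧
      InfiniteErgodicIndex m T ∧
      ∃ W : Set (X × X), MeasurableSet W ∧ Prod.map T T.symm ⁻¹' W = W ∧
        0 < (m.prod m) W ∧ 0 < (m.prod m) Wᶜ := by
  obtain ⟨X, i1, i2, m, i3, i4, T, h1, h2, h3, h4⟩ := Pool.Agent.MP335725.conclusion
  refine ⟨X, i1, i2, m, i3, T, h1, fun x => measure_singleton x, ?_, ?_, ?_⟩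
  · intro A hA
    exact h2.measure_preimage hA.nullMeasurableSet
  · intro k hk
    exact isErgodic_of_ergodic (h3 k hk)
  · have hmp : MeasurePreserving (fun p : X × X => (T p.1, T.symm p.2)) (m.prod m) (m.prod m) :=
      h2.prod (h2.symm T)
    have hpre : ¬ PreErgodic (fun p : X × X => (T p.1, T.symm p.2)) (m.prod m) :=
      fun h => h4 ⟨hmp, h⟩
    have hex : ∃ W : Set (X × X), MeasurableSet W ∧
        (fun p : X × X => (T p.1, T.symm p.2)) ⁻¹' W = W ∧
        ¬ Filter.EventuallyConst W (ae (m.prod m)) := by
      by_contra hcon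
      push Not at hcon
      exact hpre ⟨fun W hW hWi => hcon W hW hWi⟩
    obtain ⟨W, hW, hWi, hWc⟩ := hex
    rw [Filter.eventuallyConst_set'] at hWc
    push Not at hWc
    refine ⟨W, hW, hWi, pos_iff_ne_zero.2 fun h => hWc.1 (MeasureTheory.ae_eq_empty.2 h),
      pos_iff_ne_zero.2 fun h => hWc.2 (MeasureTheory.ae_eq_univ.2 h)⟩

end Pool.Agent.Results.MP_335725_an.InverseProduct
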